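import Pool.Agent.Helper86.BHW.Final

/-!
# Lattice points and successive minima (MP_98df5b_co)

The Betke-Henk-Wills inequality without any factor, in every dimension, for convex bodies whose
minima are separated or divisible.
-/

set_option autoImplicit false
open scoped Pointwise

namespace Pool.Agent.Kept86.MP_98df5b_co.SeparatedMinima

/-- Let `K` be an origin-symmetric convex body in `ℝ^d`, `L` the lattice generated by a basis `b`,
and `lam i` (`i = 0, …, d-1`) the successive minima of `K` with respect to `L`. Let `n i` be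
positive integers with `n i ≥ ⌊2 / lam i + 1⌋` such that for any two consecutive indices `i`,
`j = i + 1` either `n j` divides `n i` or `(i + 1) * n j ≤ n i`. Then `#(K ∩ L) ≤ ∏ i, n i`. -/
theorem result (d : ℕ) (b : Module.Basis (Fin d) ℝ (EuclideanSpace ℝ (Fin d)))
    (K : Set (EuclideanSpace ℝ (Fin d)))
    (hconv : Convex ℝ K) (hcomp : IsCompact K) (hint : (interior K).Nonempty)
    (hsymm : ∀ x ∈ K, -x ∈ K) (lam : Fin d → ℝ)
    (hlam : ∀ i : Fin d, lam i = sInf {t : ℝ | 0 < t ∧
              i.val + 1 ≤ Module.finrank ℝ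
                (Submodule.span ℝ ((t • K) ∩
                  (Submodule.span ℤ (Set.range b) : Set (EuclideanSpace ℝ (Fin d)))))})
    (n : Fin d → ℕ) (hn : ∀ i : Fin d, ⌊2 / lam i + 1⌋ ≤ (n i : ℤ))
    (hsep : ∀ i j : Fin d, j.val = i.val + 1 → n j ∣ n i ∨ (i.val + 1) * n j ≤ n i) :
    (K ∩ (Submodule.span ℤ (Set.range b) : Set (EuclideanSpace ℝ (Fin d)))).ncard ≤
      ∏ i : Fin d, n i := by
  have hl : lam = Pool.Agent.Helper85.BHW.lam b K := by
    funext i
    rw [hlam i]
    rfl
  subst hl
  apply Pool.Agent.Helper86.BHW.sep_bound b K hconv hcomp hint hsymm n _ hsep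
  intro i
  have hpos := Pool.Agent.Helper85.BHW.lam_pos b K hconv hcomp hint hsymm i
  have h1 : (2 / Pool.Agent.Helper85.BHW.lam b K i + 1) < (n i : ℝ) + 1 := by
    have h2 := Int.lt_floor_add_one (2 / Pool.Agent.Helper85.BHW.lam b K i + 1)
    have h3 : ((⌊2 / Pool.Agent.Helper85.BHW.lam b K i + 1⌋ : ℤ) : ℝ) ≤ (n i : ℝ) := by
      exact_mod_cast hn i
    linarith
  have h4 : 2 / Pool.Agent.Helper85.BHW.lam b K i < n i := by linarith
  rwa [div_lt_iff₀ hpos] at h4

end Pool.Agent.Kept86.MP_98df5b_co.SeparatedMinima
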